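import Pool.Agent.H98.EX.LTargets
import Pool.Agent.H35.SLN.MOQ

/-!
# The law of the charges and its tilt (row PLM of exa_modules)
-/

set_option autoImplicit false

open MeasureTheory ProbabilityTheory Filter Topology

namespace Pool.Agent.H98.EX

open Pool.Agent.H96.Cop (chargeLaw)
open Pool.Agent.H55.CG (Mo)
open Pool.Agent.H35.SLN

/-- the first and second moments -/
theorem plm_n4 (D lam L m γ ϑ R1 R2 : ℝ) (hD1 : 1 ≤ D) (hlam : 0 < lam) (hll : lam ^ 2 ≤ lam)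
    (hl1 : lam ≤ 1) (hDl : 16 * D * lam ≤ 1) (hm : 3 / 4 ≤ m) (hm2 : m ≤ 7 / 8) (hγ1 : 1 / 2 ≤ γ)
    (hγ2 : γ ≤ 2 / 3) (hL0 : 0 ≤ L) (hϑ : 0 < ϑ) (hϑ1 : ϑ ≤ 1) (hlϑ : 8 * lam ≤ ϑ)
    (hL1 : ϑ ≤ L * lam ^ 2) (hL2 : L * lam ^ 2 ≤ ϑ + lam ^ 2)
    (k1 : |R1 - -(γ * lam)| ≤ D * lam ^ 2) (k2 : |R2 - 1| ≤ D * lam) :
    L * |-(2 * lam) * (R1 + m * lam)| ≤ ϑ ∧
    |L * (4 * lam ^ 2 * (R2 + 2 * m * lam * R1 + m ^ 2 * lam ^ 2)) - 4 * ϑ| ≤
      (28 + 24 * D) * lam := by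
  have k1' := abs_le.1 k1
  have k2' := abs_le.1 k2
  have hγl : γ * lam ≤ 2 / 3 * lam := mul_le_mul_of_nonneg_right hγ2 hlam.le
  have hγl2 : 1 / 2 * lam ≤ γ * lam := mul_le_mul_of_nonneg_right hγ1 hlam.le
  have hml : m * lam ≤ 7 / 8 * lam := mul_le_mul_of_nonneg_right hm2 hlam.le
  have hml2 : 3 / 4 * lam ≤ m * lam := mul_le_mul_of_nonneg_right hm hlam.le
  have hL3 : L * lam ^ 2 ≤ 2 := by linarith
  constructor
  · rw [abs_mul, abs_neg, abs_of_pos (by positivity : 0 < 2 * lam)]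
    have h9 : |R1 + m * lam| ≤ 3 / 8 * lam + D * lam ^ 2 := by
      rw [abs_le]; constructor <;> linarith [k1'.1, k1'.2]
    have h10 : 3 / 4 + 2 * D * lam ≤ 7 / 8 := by linarith
    calc L * (2 * lam * |R1 + m * lam|) ≤ L * (2 * lam * (3 / 8 * lam + D * lam ^ 2)) :=
          mul_le_mul_of_nonneg_left (mul_le_mul_of_nonneg_left h9 (by positivity)) hL0
      _ = (L * lam ^ 2) * (3 / 4 + 2 * D * lam) := by ring
      _ ≤ (ϑ + lam ^ 2) * (7 / 8) := mul_le_mul hL2 h10 (by positivity) (by positivity)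
      _ ≤ ϑ := by linarith
  · set E : ℝ := (R2 - 1) + 2 * m * lam * R1 + m ^ 2 * lam ^ 2 with hE
    have hE1 : |E| ≤ (3 * D + 3) * lam := by
      have f1 : |R1| ≤ 1 + D := by
        have h4 : D * lam ^ 2 ≤ D * 1 := mul_le_mul_of_nonneg_left (by linarith) (by linarith)
        rw [abs_le]; constructor <;> linarith [k1'.1, k1'.2]
      have f2 : |2 * m * lam * R1| ≤ 2 * lam * (1 + D) := by
        rw [abs_mul, abs_of_nonneg (by positivity : 0 ≤ 2 * m * lam)]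
        exact mul_le_mul (by linarith) f1 (abs_nonneg _) (by positivity)
      have f3 : |m ^ 2 * lam ^ 2| ≤ lam := by
        rw [abs_of_nonneg (by positivity)]
        have h1 : m ^ 2 ≤ 1 := pow_le_one₀ (by linarith) (by linarith)
        calc m ^ 2 * lam ^ 2 ≤ 1 * lam ^ 2 := mul_le_mul_of_nonneg_right h1 (by positivity)
          _ ≤ lam := by linarith
      calc |E| ≤ |(R2 - 1) + 2 * m * lam * R1| + |m ^ 2 * lam ^ 2| := abs_add_le _ _
        _ ≤ |R2 - 1| + |2 * m * lam * R1| + |m ^ 2 * lam ^ 2| := by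
            linarith [abs_add_le (R2 - 1) (2 * m * lam * R1)]
        _ ≤ D * lam + 2 * lam * (1 + D) + lam := by linarith
        _ = (3 * D + 3) * lam := by ring
    have e3 : L * (4 * lam ^ 2 * (R2 + 2 * m * lam * R1 + m ^ 2 * lam ^ 2)) - 4 * ϑ =
        4 * (L * lam ^ 2 - ϑ) + 4 * (L * lam ^ 2) * E := by rw [hE]; ring
    rw [e3]
    have f4 : |4 * (L * lam ^ 2) * E| ≤ 8 * ((3 * D + 3) * lam) := by
      rw [abs_mul, abs_of_nonneg (by positivity : 0 ≤ 4 * (L * lam ^ 2))]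
      exact mul_le_mul (by linarith) hE1 (abs_nonneg _) (by norm_num)
    have f5 : |4 * (L * lam ^ 2 - ϑ)| ≤ 4 * lam := by
      rw [abs_of_nonneg (by linarith)]; linarith
    calc |4 * (L * lam ^ 2 - ϑ) + 4 * (L * lam ^ 2) * E| ≤ 4 * lam + 8 * ((3 * D + 3) * lam) :=
          (abs_add_le _ _).trans (by linarith)
      _ = (28 + 24 * D) * lam := by ring

theorem pf_PLM (hPLX : T_PLX) (_hMOQ : Pool.Agent.H98.SLN.T_MOQ) : T_PLM := by
  intro μ hμ hexp h1 h2 ϑ U hϑ hϑ1 hU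
  obtain ⟨C1, lam1, hC1, hlam1, hEG⟩ := hPLX μ hexp h1 h2 ϑ U hϑ hU
  obtain ⟨A, B, hA, hB, hb⟩ := moq_base μ hexp h1 h2
  have hD1 : 1 ≤ 2 * A + 1 := by linarith
  set D : ℝ := 2 * A + 1 with hD
  refine ⟨C1 + (28 + 24 * D) + 32 * B + 1, min lam1 (min (1 / (16 * (D + 1))) (ϑ / 8)),
    by linarith, ?_, ?_⟩
  · refine lt_min hlam1 (lt_min (by positivity) (by positivity))
  intro lam ε α hlam hlam2 hε0 hε1 hα1 hα2
  have hla : lam < lam1 := hlam2.trans_le (min_le_left _ _)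
  have hlb : lam < 1 / (16 * (D + 1)) :=
    hlam2.trans_le ((min_le_right _ _).trans (min_le_left _ _))
  have hlc : lam < ϑ / 8 := hlam2.trans_le ((min_le_right _ _).trans (min_le_right _ _))
  have hlamD : lam * (16 * (D + 1)) < 1 := by rwa [lt_div_iff₀ (by positivity)] at hlb
  have hlamD2 : 0 ≤ lam * D := by positivity
  have hDl : 16 * D * lam ≤ 1 := by linarith
  have hl1 : lam ≤ 1 := by linarith
  have hlϑ : 8 * lam ≤ ϑ := by linarith
  set L : ℝ := ((⌈ϑ / lam ^ 2⌉₊ : ℕ) : ℝ) with hL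
  have hl2 : 0 < lam ^ 2 := by positivity
  have hL1 : ϑ ≤ L * lam ^ 2 := by
    have h := Nat.le_ceil (ϑ / lam ^ 2)
    rwa [div_le_iff₀ hl2] at h
  have hL2 : L * lam ^ 2 ≤ ϑ + lam ^ 2 := by
    have h := Nat.ceil_lt_add_one (show 0 ≤ ϑ / lam ^ 2 by positivity)
    have h3 : L * lam ^ 2 ≤ (ϑ / lam ^ 2 + 1) * lam ^ 2 :=
      mul_le_mul_of_nonneg_right h.le hl2.le
    have h4 : (ϑ / lam ^ 2 + 1) * lam ^ 2 = ϑ + lam ^ 2 := by field_simp
    linarith
  have hll : lam ^ 2 ≤ lam := by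
    calc lam ^ 2 = lam * lam := by ring
      _ ≤ lam * 1 := mul_le_mul_of_nonneg_left hl1 hlam.le
      _ = lam := by ring
  have hL3 : L * lam ^ 2 ≤ 2 := by linarith
  have hL0 : 0 ≤ L := by positivity
  have hD0 : 0 ≤ D := by linarith
  have hm : 3 / 4 ≤ 3 / 4 + ε := by linarith
  have hm2 : 3 / 4 + ε ≤ 7 / 8 := by linarith
  set m : ℝ := 3 / 4 + ε with hmdef
  have hγ1 : 1 / 2 ≤ 1 / (1 + α) := by
    rw [div_le_div_iff₀ (by norm_num) (by linarith)]; linarith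
  have hγ2 : 1 / (1 + α) ≤ 2 / 3 := by
    rw [div_le_div_iff₀ (by linarith) (by norm_num)]; linarith
  set γ : ℝ := 1 / (1 + α) with hγ
  have htabs : |-(γ * lam)| = γ * lam := by rw [abs_neg, abs_of_nonneg (by positivity)]
  have htl : |-(γ * lam)| ≤ lam := by
    rw [htabs]
    calc γ * lam ≤ 1 * lam := mul_le_mul_of_nonneg_right (by linarith) hlam.le
      _ = lam := one_mul _
  have ht1 : |-(γ * lam)| ≤ 1 := by linarith
  obtain ⟨g1, g2, g3, g4, j1, j2, g5⟩ := hb (-(γ * lam)) ht1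
  have j0 := hexp (-(γ * lam))
  obtain ⟨k1, k2⟩ := moq_n3 A _ _ _ _ hA ht1 g1 g2 g3 g4
  have hM0 : 0 < ∫ z, Real.exp (-(γ * lam) * z) ∂μ := by linarith
  have ht2 : |-(γ * lam)| ^ 2 ≤ lam ^ 2 := pow_le_pow_left₀ (abs_nonneg _) htl 2
  have k1l := k1.trans (mul_le_mul_of_nonneg_left ht2 hD0)
  have k2l := k2.trans (mul_le_mul_of_nonneg_left htl hD0)
  obtain ⟨q1, q2⟩ := plm_n4 D lam L m γ ϑ _ _ hD1 hlam hll hl1 hDl hm hm2 hγ1 hγ2 hL0 hϑ hϑ1
    hlϑ hL1 hL2 k1l k2l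
  have hEG' := hEG lam ε hlam hla hε0 (by linarith)
  have hCle : C1 * lam ≤ (C1 + (28 + 24 * D) + 32 * B + 1) * lam :=
    mul_le_mul_of_nonneg_right (by linarith) hlam.le
  have hch : chargeLaw μ lam (m * lam) = μ.map (fun z => -2 * lam * (z + m * lam)) := rfl
  refine ⟨⟨hEG'.prob, hEG'.exp, ?_, ?_⟩, ?_, ?_, ?_⟩
  · intro u hu
    exact (Real.exp_le_exp.2 (by linarith)).trans (hEG'.lo u hu)
  · intro u hu
    exact (hEG'.up u hu).trans (Real.exp_le_exp.2 (by linarith))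
  · rw [hch, moq_tl μ lam m γ (fun z => z) continuous_id]
    have e : ∫ z, (-2 * lam * (z + m * lam)) * Real.exp (-(γ * lam) * z) ∂μ =
        -2 * lam * ((∫ z, z * Real.exp (-(γ * lam) * z) ∂μ) +
          m * lam * ∫ z, Real.exp (-(γ * lam) * z) ∂μ) := by
      have h3 : (fun z : ℝ => (-2 * lam * (z + m * lam)) * Real.exp (-(γ * lam) * z)) =
          fun z => -2 * lam * (z * Real.exp (-(γ * lam) * z) +
            m * lam * Real.exp (-(γ * lam) * z)) := by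
        funext z; ring
      rw [h3, integral_const_mul, integral_add j1 (j0.const_mul _), integral_const_mul]
    rw [e]
    have e2 : ∀ x y : ℝ, 0 < y → -2 * lam * (x + m * lam * y) / y =
        -(2 * lam) * (x / y + m * lam) := by
      intro x y hy; field_simp
    rw [e2 _ _ hM0]
    exact q1
  · rw [hch, moq_tl μ lam m γ (fun z => z ^ 2) (by fun_prop)]
    have e : ∫ z, (-2 * lam * (z + m * lam)) ^ 2 * Real.exp (-(γ * lam) * z) ∂μ =
        4 * lam ^ 2 * ((∫ z, z ^ 2 * Real.exp (-(γ * lam) * z) ∂μ) +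
          2 * m * lam * (∫ z, z * Real.exp (-(γ * lam) * z) ∂μ) +
          m ^ 2 * lam ^ 2 * ∫ z, Real.exp (-(γ * lam) * z) ∂μ) := by
      have h3 : (fun z : ℝ => (-2 * lam * (z + m * lam)) ^ 2 * Real.exp (-(γ * lam) * z)) =
          fun z => 4 * lam ^ 2 * ((z ^ 2 * Real.exp (-(γ * lam) * z) +
            2 * m * lam * (z * Real.exp (-(γ * lam) * z))) +
            m ^ 2 * lam ^ 2 * Real.exp (-(γ * lam) * z)) := by
        funext z; ring
      have s1 : Integrable (fun z : ℝ => z ^ 2 * Real.exp (-(γ * lam) * z) +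
          2 * m * lam * (z * Real.exp (-(γ * lam) * z))) μ := j2.add (j1.const_mul _)
      rw [h3, integral_const_mul, integral_add s1 (j0.const_mul _),
        integral_add j2 (j1.const_mul _), integral_const_mul, integral_const_mul]
    rw [e]
    have e2 : ∀ x w y : ℝ, 0 < y →
        4 * lam ^ 2 * (x + 2 * m * lam * w + m ^ 2 * lam ^ 2 * y) / y =
        4 * lam ^ 2 * (x / y + 2 * m * lam * (w / y) + m ^ 2 * lam ^ 2) := by
      intro x w y hy; field_simp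
    rw [e2 _ _ _ hM0]
    refine q2.trans (mul_le_mul_of_nonneg_right (by linarith) hlam.le)
  · rw [hch, moq_tl μ lam m γ (fun z => z ^ 4) (by fun_prop)]
    have e : ∫ z, (-2 * lam * (z + m * lam)) ^ 4 * Real.exp (-(γ * lam) * z) ∂μ =
        16 * lam ^ 4 * ∫ z, (z + m * lam) ^ 4 * Real.exp (-(γ * lam) * z) ∂μ := by
      rw [← integral_const_mul]
      refine integral_congr_ae (Filter.Eventually.of_forall fun z => ?_)
      simp only; ring
    rw [e]
    have h9 := g5 (m * lam) (by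
      rw [abs_of_nonneg (by positivity)]
      calc m * lam ≤ 1 * 1 := mul_le_mul (by linarith) hl1 hlam.le (by norm_num)
        _ = 1 := one_mul _)
    have h10 : 16 * lam ^ 4 * (∫ z, (z + m * lam) ^ 4 * Real.exp (-(γ * lam) * z) ∂μ) /
        (∫ z, Real.exp (-(γ * lam) * z) ∂μ) ≤ 16 * lam ^ 4 * B := by
      rw [div_le_iff₀ hM0]
      refine (mul_le_mul_of_nonneg_left h9 (by positivity)).trans ?_
      exact le_mul_of_one_le_right (by positivity) g1
    calc _ ≤ L * (16 * lam ^ 4 * B) := mul_le_mul_of_nonneg_left h10 hL0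
      _ = 16 * B * lam ^ 2 * (L * lam ^ 2) := by ring
      _ ≤ 16 * B * lam ^ 2 * 2 := mul_le_mul_of_nonneg_left hL3 (by positivity)
      _ = 32 * B * lam ^ 2 := by ring
      _ ≤ 32 * B * lam := mul_le_mul_of_nonneg_left hll (by positivity)
      _ ≤ (C1 + (28 + 24 * D) + 32 * B + 1) * lam :=
          mul_le_mul_of_nonneg_right (by linarith) hlam.le

end Pool.Agent.H98.EX
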